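import Mathlib

set_option autoImplicit false

namespace Pool.Agent.Results.MP_9b0515_pr.Counter

open MeasureTheory ProbabilityTheory Real Set Filter Topology
open scoped ENNReal NNReal
open Complex (I)

/-- periodicity, up to Lebesgue null sets -/
def Periodic {n : ℕ} (Ω : Set (Fin n → ℝ)) : Prop :=
  ∀ᵐ x : Fin n → ℝ, (∀ i, x - Pi.single i 1 ∈ Ω ↔ x ∉ Ω) ∧ (-x ∈ Ω ↔ x ∉ Ω)

/-- the standard Gaussian measure -/
noncomputable def gauss (n : ℕ) : Measure (Fin n → ℝ) := Measure.pi fun _ => gaussianReal 0 1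

/-- noise stability -/
noncomputable def stab {n : ℕ} (ρ : ℝ) (A : Set (Fin n → ℝ)) : ℝ≥0∞ :=
  (gauss n).prod (gauss n) {p | p.1 ∈ A ∧ ρ • p.1 + √(1 - ρ ^ 2) • p.2 ∈ A}

noncomputable def sq (y : ℝ) : ℝ := if 0 ≤ sin (π * y) then 1 else -1

lemma sq_meas : Measurable sq :=
  Measurable.ite (measurableSet_le measurable_const (by fun_prop)) measurable_const measurable_const

lemma sq_abs (y : ℝ) : |sq y| = 1 := by unfold sq; split_ifs <;> simp

lemma sq_int (y : ℝ) (h0 : 0 < y) (h1 : y < 1) (m : ℤ) :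
    (sq (y + m) : ℂ) = Complex.exp (m * (π * I)) := by
  have h : 0 < sin (π * y) := sin_pos_of_pos_of_lt_pi (by positivity) (by nlinarith [pi_pos])
  rw [Complex.exp_int_mul, Complex.exp_pi_mul_I, sq, mul_add, mul_comm π m, sin_add_int_mul_pi]
  rcases Int.even_or_odd m with e | e <;> simp [e.neg_one_zpow, h.le, h.not_ge]

noncomputable def c (v θ : ℝ) (j : ℤ) : ℝ := exp (-(2 * π ^ 2 * v * (j - (1 + θ) / 2) ^ 2))

lemma poisson (v : ℝ≥0) (hv : 0 < (v : ℝ)) (θ w : ℝ) :
    ∑' m : ℤ, gaussianPDFReal 0 v (w + m) • (Complex.exp (m * (π * I)) *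
      Complex.exp (π * θ * (w + m : ℝ) * I)) =
    ∑' j : ℤ, c v θ j * Complex.exp (π * (2 * j - 1) * w * I) := by
  have p0 := pi_pos
  have hp : (π : ℂ) ≠ 0 := by exact_mod_cast p0.ne'
  have hv' : ((v : ℝ) : ℂ) ≠ 0 := by exact_mod_cast hv.ne'
  have P := Complex.tsum_exp_neg_quadratic (a := ((2 * π * v)⁻¹ : ℝ)) (by
    rw [Complex.ofReal_re]; positivity) (I * (1 + θ) / 2 - ((2 * π * v)⁻¹ : ℝ) * w)
  have s : (1 : ℂ) / (((2 * π * v)⁻¹ : ℝ) : ℂ) ^ (1 / 2 : ℂ) = (√(2 * π * v) : ℝ) := by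
    rw [sqrt_eq_rpow, show (1 / 2 : ℂ) = ((1 / 2 : ℝ) : ℂ) by simp,
      ← Complex.ofReal_cpow (by positivity), inv_rpow (by positivity)]
    simp
  have s0 : ((√(2 * π * v) : ℝ) : ℂ) ≠ 0 := by
    exact_mod_cast (sqrt_pos.2 (by positivity)).ne'
  rw [s] at P
  have P2 := congrArg (fun z => ((√(2 * π * v) : ℝ) : ℂ)⁻¹ *
    (Complex.exp (π * θ * w * I - w ^ 2 / (2 * (v : ℝ))) * z)) P
  simp only [mul_left_comm (Complex.exp _) ((√(2 * π * v) : ℝ) : ℂ), inv_mul_cancel_left₀ s0] at P2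
  simp only [← tsum_mul_left] at P2
  refine (tsum_congr fun m => ?_).trans (P2.trans (tsum_congr fun j => ?_))
  · simp only [gaussianPDFReal, Complex.real_smul, Complex.ofReal_mul, Complex.ofReal_exp,
      Complex.ofReal_inv, mul_assoc, ← Complex.exp_add]
    congr 2
    push_cast; field_simp; ring
  · simp only [c, Complex.ofReal_exp, ← Complex.exp_add]
    congr 1
    push_cast; field_simp
    clear P P2 s s0
    grind [Complex.I_sq]

noncomputable def C0 : ℝ := ∑' j : ℤ, exp (1 - |(j : ℝ)|)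

lemma C0_sum : Summable fun j : ℤ => exp (1 - |(j : ℝ)|) := by
  have s : Summable fun k : ℤ => exp (-|(k : ℝ)|) :=
    .of_nat_of_neg (by simpa using summable_exp_neg_nat) (by simpa using summable_exp_neg_nat)
  simpa [sub_eq_add_neg, exp_add] using s.mul_left (exp 1)

lemma c_le {v θ : ℝ} (hv : 1 / 2 ≤ v) (h0 : 0 ≤ θ) (h1 : θ ≤ 1) (j : ℤ) (a : j ≠ 1) (b : j ≠ 0) :
    c v θ j ≤ exp (-(π ^ 2 * v)) * exp (1 - |(j : ℝ)|) := by
  rw [c, ← exp_add, exp_le_exp]
  have p : 1 ≤ π ^ 2 * v := by nlinarith [pi_gt_three]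
  have q : 1 ≤ |j - (1 + θ) / 2| ∧ |(j : ℝ)| - 1 ≤ |j - (1 + θ) / 2| := by
    rcases (by omega : 2 ≤ j ∨ j ≤ -1) with h | h
    · have : (2 : ℝ) ≤ j := by exact_mod_cast h
      rw [abs_of_nonneg (by linarith), abs_of_nonneg (by linarith)]; constructor <;> linarith
    · have : (j : ℝ) ≤ -1 := by exact_mod_cast h
      rw [abs_of_nonpos (by linarith), abs_of_nonpos (by linarith)]; constructor <;> linarith
  rw [← _root_.sq_abs (j - (1 + θ) / 2)]
  generalize |j - (1 + θ) / 2| = l at *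
  have : l ≤ l ^ 2 := by nlinarith
  nlinarith [mul_le_mul_of_nonneg_right p (sq_nonneg l),
    mul_le_mul_of_nonneg_left (q.1.trans this) (by linarith : 0 ≤ π ^ 2 * v)]

lemma key (v : ℝ≥0) (hv : 1 / 2 ≤ (v : ℝ)) (θ a : ℝ) (h0 : 0 ≤ θ) (h1 : θ ≤ 1) :
    ‖∫ r, (sq (a + r) : ℂ) * Complex.exp (π * θ * r * I) ∂gaussianReal 0 v -
      2 * I / π * (c v θ 1 * Complex.exp (-(π * a * I)) - c v θ 0 * Complex.exp (π * a * I))‖ ≤
      C0 * exp (-(π ^ 2 * v)) := by
  have hv0 : 0 < (v : ℝ) := by linarith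
  have hp : (π : ℂ) ≠ 0 := by exact_mod_cast pi_pos.ne'
  let G : ℝ → ℂ := fun y => gaussianPDFReal 0 v (y - a) •
    ((sq y : ℂ) * Complex.exp (π * θ * (y - a : ℝ) * I))
  have hG : Integrable G := by
    refine ((integrable_gaussianPDFReal 0 v).comp_sub_right a).smul_of_top_left ?_
    refine memLp_top_of_bound ?_ 1 (.of_forall fun y => ?_)
    · exact ((Complex.measurable_ofReal.comp sq_meas).mul (by fun_prop)).aestronglyMeasurable
    · rw [norm_mul, Complex.norm_real, norm_eq_abs, sq_abs, one_mul]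
      exact le_of_eq (by simpa using Complex.norm_exp_ofReal_mul_I (π * θ * (y - a)))
  have e1 : ∫ r, (sq (a + r) : ℂ) * Complex.exp (π * θ * r * I) ∂gaussianReal 0 v = ∫ y, G y := by
    rw [integral_gaussianReal_eq_integral_smul (by exact_mod_cast hv0.ne'),
      ← integral_add_left_eq_self G a]
    simp [G]
  have e2 := hG.hasSum_intervalIntegral_comp_add_int
  have e3 := hG.norm.hasSum_intervalIntegral_comp_add_int.summable
  simp only [intervalIntegral.integral_of_le zero_le_one] at e2 e3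
  have e4 := e2.unique (hasSum_integral_of_summable_integral_norm
    (fun n : ℤ => (hG.comp_add_right n).integrableOn) e3)
  let f : ℤ → ℝ → ℂ := fun j y => c v θ j * Complex.exp (π * (2 * j - 1) * (y - a : ℝ) * I)
  have nf : ∀ j y, ‖f j y‖ = c v θ j := fun j y => by
    have := Complex.norm_exp_ofReal_mul_I (π * (2 * j - 1) * (y - a))
    push_cast at this
    simp [f, this, c, abs_of_pos (exp_pos _), -Complex.ofReal_exp]
  have e5 : ∫ y in Ioc 0 1, ∑' n : ℤ, G (y + n) = ∫ y in (0 : ℝ)..1, ∑' j, f j y := by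
    rw [intervalIntegral.integral_of_le zero_le_one, integral_Ioc_eq_integral_Ioo,
      integral_Ioc_eq_integral_Ioo]
    refine setIntegral_congr_fun measurableSet_Ioo fun y hy => ?_
    refine .trans (tsum_congr fun n => ?_) (poisson v hv0 θ (y - a))
    simp only [G, sq_int y hy.1 hy.2, add_sub_right_comm]
  have sc : Summable (c v θ) := by
    refine (C0_sum.mul_left (exp (-(π ^ 2 * v)))).of_norm_bounded_eventually ?_
    filter_upwards [(toFinite {1, 0}).compl_mem_cofinite] with j hj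
    simp only [mem_compl_iff, mem_insert_iff, mem_singleton_iff, not_or] at hj
    rw [norm_eq_abs, abs_of_pos (by unfold c; positivity)]
    exact c_le hv h0 h1 j hj.1 hj.2
  have cf : ∀ j, Continuous (f j) := fun j => by fun_prop
  have e6 : 2 * I / π * (c v θ 1 * Complex.exp (-(π * a * I)) - c v θ 0 * Complex.exp (π * a * I)) =
      ∫ y in (0 : ℝ)..1, (f 1 y + f 0 y) := by
    have k : ∀ z : ℂ, z ≠ 0 → ∫ y in (0 : ℝ)..1, Complex.exp (z * (y - a : ℝ)) =
        (Complex.exp z - 1) / z * Complex.exp (-(z * a)) := fun z hz => by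
      simp only [Complex.ofReal_sub, mul_sub, sub_eq_add_neg (z * _), Complex.exp_add]
      rw [intervalIntegral.integral_mul_const, integral_exp_mul_complex hz]; simp
    have k1 := k (π * I) (by simp)
    have k0 := k (-(π * I)) (by simp)
    rw [intervalIntegral.integral_add ((cf _).intervalIntegrable _ _) ((cf _).intervalIntegrable _ _)]
    simp only [f, intervalIntegral.integral_const_mul]
    rw [intervalIntegral.integral_congr (g := fun y => Complex.exp (π * I * (y - a : ℝ)))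
      fun y _ => by simp only; congr 1; push_cast; ring, k1,
      intervalIntegral.integral_congr (g := fun y => Complex.exp (-(π * I) * (y - a : ℝ)))
      fun y _ => by simp only; congr 1; push_cast; ring, k0, Complex.exp_neg (π * I),
      Complex.exp_pi_mul_I, neg_mul, neg_neg, mul_right_comm (π : ℂ) I a]
    field_simp
    grind [Complex.I_sq]
  rw [e1, e4, e5, e6, ← intervalIntegral.integral_sub
    ((continuous_tsum cf sc fun j y => (nf j y).le).intervalIntegrable _ _)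
    (((cf _).fun_add (cf _)).intervalIntegrable _ _)]
  refine (intervalIntegral.norm_integral_le_of_norm_le_const fun y _ => ?_).trans (by simp; rfl)
  have hs := (sc.of_norm_bounded fun j => (nf j y).le).hasSum.sub
    ((hasSum_ite_eq (1 : ℤ) (f 1 y)).add (hasSum_ite_eq (0 : ℤ) (f 0 y)))
  refine hs.norm_le_of_bounded (C0_sum.hasSum.mul_right _) fun j => ?_
  by_cases a1 : j = 1
  · simp [a1]; positivity
  by_cases a0 : j = 0
  · simp [a0]; positivity
  simpa [a1, a0, nf, mul_comm] using c_le hv h0 h1 j a1 a0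

lemma bdd {X E : Type} [MeasurableSpace X] [NormedAddCommGroup E] [MeasurableSpace E] [BorelSpace E]
    [SecondCountableTopology E] (μ : Measure X) [IsFiniteMeasure μ] {f : X → E} (hf : Measurable f)
    (C : ℝ) (h : ∀ x, ‖f x‖ ≤ C) : Integrable f μ :=
  .of_bound hf.aestronglyMeasurable C (.of_forall h)

lemma beta (v : ℝ≥0) (hv : 1 / 2 ≤ (v : ℝ)) (a : ℝ) :
    |∫ r, sq (a + r) ∂gaussianReal 0 v - 4 / π * exp (-(π ^ 2 * v / 2)) * sin (π * a)| ≤
      C0 * exp (-(π ^ 2 * v)) := by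
  have k := key v hv 0 a le_rfl zero_le_one
  have c1 : c v 0 1 = exp (-(π ^ 2 * v / 2)) := by unfold c; congr 1; push_cast; ring
  have c0 : c v 0 0 = exp (-(π ^ 2 * v / 2)) := by unfold c; congr 1; push_cast; ring
  simp only [Complex.ofReal_zero, mul_zero, zero_mul, Complex.exp_zero, mul_one,
    c1, c0] at k
  rw [← norm_eq_abs, ← Complex.norm_real]
  convert k using 2
  rw [Complex.ofReal_sub]
  congr 1
  · exact integral_ofReal.symm
  · generalize exp (-(π ^ 2 * v / 2)) = E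
    push_cast
    rw [Complex.sin, neg_mul]; ring

lemma norm_e (t : ℝ) : ‖Complex.exp (t * I)‖ = 1 := Complex.norm_exp_ofReal_mul_I t

lemma twist (v : ℝ≥0) (hv : 1 / 2 ≤ (v : ℝ)) (a b : ℝ) :
    |∫ r, (1 + sq (a + r)) * sin (π * (b + 3 / 5 * r)) ∂gaussianReal 0 v -
      2 / π * exp (-(π ^ 2 * v / 50)) ^ 4 * cos (π * (a - b))| ≤
      (2 + C0) * exp (-(π ^ 2 * v / 50)) ^ 9 := by
  have k := key v hv (3 / 5) a (by norm_num) (by norm_num)
  set Q := exp (-(π ^ 2 * v / 50))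
  have q : ∀ (n : ℕ) (x : ℝ), x = n * -(π ^ 2 * v / 50) → exp x = Q ^ n := fun n x h => by
    rw [h, exp_nat_mul]
  have Q1 : Q ≤ 1 := exp_le_one_iff.2 (neg_nonpos.2 (by positivity))
  have Q0 : 0 < Q := exp_pos _
  rw [c, c, q 4 _ (by push_cast; ring), q 64 _ (by push_cast; ring), q 50 _ (by push_cast; ring)] at k
  have ch : ‖∫ r : ℝ, Complex.exp (π * (3 / 5 : ℝ) * r * I) ∂gaussianReal 0 v‖ = Q ^ 9 := by
    have := charFun_gaussianReal (μ := 0) (v := v) (π * (3 / 5))
    rw [charFun_apply_real] at this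
    simp only [Complex.ofReal_mul] at this
    rw [this, Complex.norm_exp]
    refine q 9 _ ?_
    simp [pow_two]; ring
  have n1 : ∀ r : ℝ, ‖Complex.exp (π * (3 / 5 : ℝ) * r * I)‖ = 1 := fun r => by
    simpa using norm_e (π * (3 / 5 : ℝ) * r)
  have i1 : Integrable (fun r : ℝ => Complex.exp (π * (3 / 5 : ℝ) * r * I)) (gaussianReal 0 v) :=
    bdd _ (by fun_prop) 1 fun r => (n1 r).le
  have i2 : Integrable (fun r : ℝ => (sq (a + r) : ℂ) * Complex.exp (π * (3 / 5 : ℝ) * r * I))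
      (gaussianReal 0 v) := bdd _ (by have := sq_meas; fun_prop) 1 fun r => by
        rw [norm_mul, n1, Complex.norm_real, norm_eq_abs, sq_abs, one_mul]
  have e := integral_im ((i1.add i2).const_mul (Complex.exp ((π * b : ℝ) * I)))
  simp only [Pi.add_apply] at e
  rw [integral_const_mul, integral_add i1 i2] at e
  have e1 : ∫ r, (1 + sq (a + r)) * sin (π * (b + 3 / 5 * r)) ∂gaussianReal 0 v = _ :=
    (integral_congr_ae (.of_forall fun r => by
      have : Complex.exp (π * (3 / 5 : ℝ) * r * I) = Complex.exp ((π * (3 / 5) * r : ℝ) * I) := by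
        simp
      simp only [this, RCLike.im_to_complex, Complex.mul_im, Complex.add_im, Complex.add_re,
        Complex.mul_re, Complex.ofReal_re, Complex.ofReal_im, Complex.exp_ofReal_mul_I_re,
        Complex.exp_ofReal_mul_I_im, mul_add π, sin_add, ← mul_assoc]
      ring)).trans e
  have e2 : 2 / π * Q ^ 4 * cos (π * (a - b)) = (Complex.exp ((π * b : ℝ) * I) *
      (2 * I / π * ((Q ^ 4 : ℝ) * Complex.exp (-(π * a * I))))).im := by
    have : Complex.exp ((π * b : ℝ) * I) * (2 * I / π * ((Q ^ 4 : ℝ) * Complex.exp (-(π * a * I)))) =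
        (2 / π * Q ^ 4 : ℝ) * (I * Complex.exp ((-(π * (a - b)) : ℝ) * I)) := by
      rw [show ((-(π * (a - b)) : ℝ) : ℂ) * I = (π * b : ℝ) * I + -(π * a * I) by push_cast; ring,
        Complex.exp_add]
      push_cast; ring
    rw [this, Complex.im_ofReal_mul, Complex.I_mul_im, Complex.exp_ofReal_mul_I_re, cos_neg]
  rw [e1, e2, RCLike.im_to_complex, ← Complex.sub_im, ← mul_sub]
  refine (Complex.abs_im_le_norm _).trans ?_
  rw [norm_mul, norm_e, one_mul]
  have n2 : ‖2 * I / π * ((Q ^ 64 : ℝ) * Complex.exp (π * a * I))‖ ≤ Q ^ 9 := by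
    have := norm_e (π * a)
    push_cast at this
    rw [norm_mul, norm_mul, this, Complex.norm_real, norm_eq_abs, abs_of_pos (by positivity), mul_one]
    refine (mul_le_of_le_one_left (by positivity) ?_).trans (pow_le_pow_of_le_one Q0.le Q1 (by norm_num))
    simp only [norm_div, norm_mul, Complex.norm_ofNat, Complex.norm_I, mul_one, Complex.norm_real,
      norm_eq_abs, abs_of_pos pi_pos]
    rw [div_le_one pi_pos]; linarith [pi_gt_three]
  have C : 0 ≤ C0 := tsum_nonneg fun _ => (exp_pos _).le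
  have n3 := mul_le_mul_of_nonneg_left (pow_le_pow_of_le_one Q0.le Q1 (by norm_num : 9 ≤ 50)) C
  have n4 := (norm_sub_le _ _).trans (add_le_add ((norm_add_le _ _).trans (add_le_add ch.le k)) n2)
  refine le_trans (le_of_eq ?_) (n4.trans (by linarith))
  congr 1; ring

noncomputable def H (v : ℝ≥0) (a b : ℝ) : ℝ := ∫ r, ∫ r', (1 + sq (a + r)) *
  (1 + sq (b + 3 / 5 * r + 4 / 5 * r')) ∂gaussianReal 0 v ∂gaussianReal 0 v

lemma u_le (y : ℝ) : ‖1 + sq y‖ ≤ 2 := by unfold sq; split_ifs <;> norm_num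

lemma H_est (v : ℝ≥0) (hv : 1 ≤ (v : ℝ)) (a b : ℝ) :
    |H v a b - (1 + 8 / π ^ 2 * exp (-(π ^ 2 * v / 50)) ^ 20 * cos (π * (a - b)))| ≤
      (6 + 5 * C0) * exp (-(π ^ 2 * v / 50)) ^ 25 := by
  have k1 := beta v (by linarith) a
  have k2 := twist v (by linarith) a b
  have k3 := beta (NNReal.mk ((4 / 5) ^ 2) (sq_nonneg _) * v) (by push_cast; linarith)
  set Q := exp (-(π ^ 2 * v / 50))
  have q : ∀ (n : ℕ) (x : ℝ), x = n * -(π ^ 2 * v / 50) → exp x = Q ^ n := fun n x h => by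
    rw [h, exp_nat_mul]
  have Q1 : Q ≤ 1 := exp_le_one_iff.2 (neg_nonpos.2 (by positivity))
  have Q0 : 0 < Q := exp_pos _
  have m := sq_meas
  rw [q 16 _ (by push_cast; ring), q 32 _ (by push_cast; ring)] at k3
  rw [q 25 _ (by push_cast; ring), q 50 _ (by push_cast; ring)] at k1
  have e : ∀ y, ∫ r', (1 + sq (y + 4 / 5 * r')) ∂gaussianReal 0 v =
      1 + ∫ r, sq (y + r) ∂gaussianReal 0 (NNReal.mk ((4 / 5) ^ 2) (sq_nonneg _) * v) := fun y => by
    have := gaussianReal_map_const_mul (μ := 0) (v := v) (4 / 5)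
    rw [mul_zero] at this
    rw [integral_add (integrable_const _) (bdd _ (by fun_prop) 1 fun _ => (sq_abs _).le), ← this,
      integral_map (by fun_prop) (Measurable.aestronglyMeasurable (by fun_prop))]
    simp
  have i1 : Integrable (fun r => sq (a + r)) (gaussianReal 0 v) :=
    bdd _ (by fun_prop) 1 fun _ => (sq_abs _).le
  have i2 : Integrable (fun r => (1 + sq (a + r)) * sin (π * (b + 3 / 5 * r))) (gaussianReal 0 v) :=
    bdd _ (by fun_prop) (2 * 1) fun _ => by
      rw [norm_mul]; exact mul_le_mul (u_le _) (abs_sin_le_one _) (norm_nonneg _) zero_le_two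
  have i3 : Integrable (fun r => ∫ r', (1 + sq (a + r)) * (1 + sq (b + 3 / 5 * r + 4 / 5 * r'))
      ∂gaussianReal 0 v) (gaussianReal 0 v) := Integrable.integral_prod_left (f := fun p : ℝ × ℝ =>
      (1 + sq (a + p.1)) * (1 + sq (b + 3 / 5 * p.1 + 4 / 5 * p.2))) (bdd _ (by fun_prop) (2 * 2)
      fun _ => by rw [norm_mul]; exact mul_le_mul (u_le _) (u_le _) (norm_nonneg _) zero_le_two)
  have C : 0 ≤ C0 := tsum_nonneg fun _ => (exp_pos _).le
  have k4 := norm_integral_le_of_norm_le_const (μ := gaussianReal 0 v) (C := 2 * (C0 * Q ^ 32))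
    (f := fun r => ∫ r', (1 + sq (a + r)) * (1 + sq (b + 3 / 5 * r + 4 / 5 * r')) ∂gaussianReal 0 v -
      ((1 + sq (a + r)) + 4 / π * Q ^ 16 * ((1 + sq (a + r)) * sin (π * (b + 3 / 5 * r)))))
    (.of_forall fun r => by
      rw [integral_const_mul, e]
      refine le_trans (le_of_eq ?_) (mul_le_mul (u_le (a + r)) (k3 (b + 3 / 5 * r)) (abs_nonneg _)
        zero_le_two)
      rw [← norm_eq_abs, ← norm_mul]; congr 1; ring)
  have i0 : Integrable (fun r => 1 + sq (a + r)) (gaussianReal 0 v) := (integrable_const _).add i1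
  rw [integral_sub i3 (i0.fun_add (i2.const_mul _)), integral_add i0 (i2.const_mul _),
    integral_add (integrable_const _) i1, integral_const_mul] at k4
  simp only [integral_const, probReal_univ, smul_eq_mul, mul_one, norm_eq_abs] at k4
  have p : 4 / π ≤ 2 := by rw [div_le_iff₀ pi_pos]; linarith [pi_gt_three]
  have p0 : 0 ≤ 4 / π := by positivity
  have k5 := mul_le_mul_of_nonneg_left k2 (by positivity : 0 ≤ 4 / π * Q ^ 16)
  rw [← abs_of_nonneg (by positivity : 0 ≤ 4 / π * Q ^ 16), ← abs_mul,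
    abs_of_nonneg (by positivity : 0 ≤ 4 / π * Q ^ 16)] at k5
  have k6 : |4 / π * Q ^ 25 * sin (π * a)| ≤ 2 * Q ^ 25 := by
    rw [abs_mul, abs_of_nonneg (by positivity)]
    exact (mul_le_of_le_one_right (by positivity) (abs_sin_le_one _)).trans (by gcongr)
  have n1 := mul_le_mul_of_nonneg_left (pow_le_pow_of_le_one Q0.le Q1 (by norm_num : 25 ≤ 50)) C
  have n2 := mul_le_mul_of_nonneg_left (pow_le_pow_of_le_one Q0.le Q1 (by norm_num : 25 ≤ 32)) C
  have n3 : 4 / π * Q ^ 16 * ((2 + C0) * Q ^ 9) ≤ 2 * ((2 + C0) * Q ^ 25) := by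
    rw [show 4 / π * Q ^ 16 * ((2 + C0) * Q ^ 9) = 4 / π * ((2 + C0) * Q ^ 25) by ring]; gcongr
  have n4 : 4 / π * Q ^ 16 * (2 / π * Q ^ 4 * cos (π * (a - b))) =
    8 / π ^ 2 * Q ^ 20 * cos (π * (a - b)) := by ring
  rw [mul_sub, n4] at k5
  rw [abs_le] at k1 k4 k5 k6 ⊢
  unfold H
  constructor <;> linarith [k1.1, k1.2, k4.1, k4.2, k5.1, k5.2, k6.1, k6.2]

noncomputable def g (τ x : ℝ) : ℝ := x - τ * sin (2 * π * x)

def Om (N : ℕ) (τ : ℝ) : Set (Fin (N + 1) → ℝ) := {x | 0 ≤ sin (π * (g τ (x 0) + ∑ i, x (Fin.succ i)))}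

lemma per (N : ℕ) {τ : ℝ} (h0 : 0 ≤ τ) (h1 : τ ≤ 1 / 7) : Periodic (Om N τ) := by
  have inj : Function.Injective (g τ) := fun x y h => by
    have a := abs_sin_sub_sin_le (2 * π * x) (2 * π * y)
    have b : |x - y| = τ * |sin (2 * π * x) - sin (2 * π * y)| := by
      rw [← abs_of_nonneg h0, ← abs_mul]; congr 1; unfold g at h; linarith
    rw [← mul_sub, abs_mul, abs_of_pos two_pi_pos] at a
    have : |x - y| ≤ 0 := by
      nlinarith [mul_le_mul_of_nonneg_left a h0, abs_nonneg (x - y), pi_lt_d2,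
        mul_le_mul_of_nonneg_left h1 (by positivity : 0 ≤ π * |x - y|)]
    exact sub_eq_zero.1 (abs_nonpos_iff.1 this)
  have nul : ∀ᵐ x : Fin (N + 1) → ℝ, sin (π * (g τ (x 0) + ∑ i, x (Fin.succ i))) ≠ 0 := by
    have ms : MeasurableSet {p : ℝ × (Fin N → ℝ) | sin (π * (g τ p.1 + ∑ i, p.2 i)) = 0} :=
      measurableSet_eq_fun (by unfold g; fun_prop) measurable_const
    have := (volume_preserving_piFinSuccAbove (fun _ : Fin (N + 1) => ℝ) 0).measure_preimage
      ms.nullMeasurableSet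
    rw [Measure.volume_eq_prod, Measure.prod_apply_symm ms, lintegral_eq_zero_of_ae_eq_zero
      (.of_forall fun y => Countable.measure_zero (((countable_range
        fun k : ℤ => (k : ℝ) - ∑ i, y i).preimage_of_injOn inj.injOn).mono fun x hx => ?_) _)] at this
    · simpa [ae_iff, Fin.tail] using this
    · obtain ⟨k, hk⟩ := sin_eq_zero_iff.1 hx
      rw [mul_comm, mul_right_inj' pi_ne_zero] at hk
      exact ⟨k, by simp [hk]⟩
  filter_upwards [nul] with x hx
  have k : ∀ y : Fin (N + 1) → ℝ, sin (π * (g τ (y 0) + ∑ i, y (Fin.succ i))) =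
      -sin (π * (g τ (x 0) + ∑ i, x (Fin.succ i))) → (y ∈ Om N τ ↔ x ∉ Om N τ) := fun y hy => by
    simp only [Om, mem_ofPred, hy, not_le, neg_nonneg]
    exact ⟨fun h => lt_of_le_of_ne h hx, le_of_lt⟩
  refine ⟨fun i => k _ ?_, k _ ?_⟩
  · rw [← sin_sub_pi, ← mul_sub_one]
    congr 2
    cases i using Fin.cases with
    | zero => simp [g, mul_sub]; ring
    | succ i => simp [Fin.succ_ne_zero, Pi.single_apply]; ring
  · rw [← sin_neg, ← mul_neg]
    congr 2
    simp [g]; ring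

lemma mp (N : ℕ) : MeasurePreserving (fun x : Fin (N + 1) → ℝ => (x 0, ∑ i, x (Fin.succ i)))
    (gauss (N + 1)) ((gaussianReal 0 1).prod (gaussianReal 0 N)) := by
  have a : MeasurePreserving (fun x : Fin N → ℝ => ∑ i, x i) (Measure.pi fun _ => gaussianReal 0 1)
      (gaussianReal 0 N) := ⟨by fun_prop, Measure.ext_of_charFun (by
    rw [charFun_map_sum_pi_eq_prod]
    ext t
    simp [charFun_gaussianReal, ← Complex.exp_nat_mul]; congr 1; ring)⟩
  exact ((MeasurePreserving.id _).prod a).comp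
    (measurePreserving_piFinSuccAbove (fun _ : Fin (N + 1) => gaussianReal 0 1) 0)

lemma mp4 (μ ν : Measure ℝ) [SFinite μ] [SFinite ν] : MeasurePreserving
    (fun q : (ℝ × ℝ) × (ℝ × ℝ) => ((q.1.1, q.2.1), (q.1.2, q.2.2))) ((μ.prod ν).prod (μ.prod ν))
    ((μ.prod μ).prod (ν.prod ν)) :=
  ((measurePreserving_prodAssoc μ μ (ν.prod ν)).symm.comp ((MeasurePreserving.id μ).prod
    ((measurePreserving_prodAssoc μ ν ν).comp
    ((Measure.measurePreserving_swap.prod (MeasurePreserving.id ν)).comp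
    (measurePreserving_prodAssoc ν μ ν).symm)))).comp (measurePreserving_prodAssoc μ ν (μ.prod ν))

lemma stab_eq (N : ℕ) (τ : ℝ) :
    Integrable (fun p : ℝ × ℝ => H N (g τ p.1) (g τ (3 / 5 * p.1 + 4 / 5 * p.2)))
      ((gaussianReal 0 1).prod (gaussianReal 0 1)) ∧ 4 * (stab (3 / 5) (Om N τ)).toReal =
    ∫ p : ℝ × ℝ, H N (g τ p.1) (g τ (3 / 5 * p.1 + 4 / 5 * p.2))
      ∂(gaussianReal 0 1).prod (gaussianReal 0 1) := by
  have m := sq_meas
  let f : (ℝ × ℝ) × (ℝ × ℝ) → ℝ := fun q => (1 + sq (g τ q.1.1 + q.2.1)) *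
    (1 + sq (g τ (3 / 5 * q.1.1 + 4 / 5 * q.1.2) + 3 / 5 * q.2.1 + 4 / 5 * q.2.2))
  have mf : Measurable f := by unfold f g; fun_prop
  have bf : ∀ q, ‖f q‖ ≤ 2 * 2 := fun q => by
    rw [norm_mul]; exact mul_le_mul (u_le _) (u_le _) (norm_nonneg _) zero_le_two
  have i := bdd (((gaussianReal 0 1).prod (gaussianReal 0 1)).prod
    ((gaussianReal 0 N).prod (gaussianReal 0 N))) mf _ bf
  have e : ∀ p : ℝ × ℝ, H N (g τ p.1) (g τ (3 / 5 * p.1 + 4 / 5 * p.2)) =
      ∫ y, f (p, y) ∂(gaussianReal 0 N).prod (gaussianReal 0 N) := fun p =>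
    (integral_prod _ (bdd _ (mf.comp measurable_prodMk_left) _ fun y => bf (p, y))).symm
  simp only [e]
  refine ⟨i.integral_prod_left, ?_⟩
  have : IsProbabilityMeasure (gauss (N + 1)) := by unfold gauss; infer_instance
  have M := (mp4 _ _).comp ((mp N).prod (mp N))
  have s : √(1 - (3 / 5) ^ 2) = 4 / 5 := by
    rw [show (1 : ℝ) - (3 / 5) ^ 2 = (4 / 5) ^ 2 by norm_num, sqrt_sq (by norm_num)]
  have mO : MeasurableSet (Om N τ) := measurableSet_le measurable_const (by unfold g; fun_prop)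
  rw [← integral_prod _ i, ← M.map_eq, integral_map M.measurable.aemeasurable
    mf.aestronglyMeasurable, stab, s, ← measureReal_def, ← integral_indicator_one
    (show MeasurableSet {p : (Fin (N + 1) → ℝ) × (Fin (N + 1) → ℝ) | p.1 ∈ Om N τ ∧
      (3 / 5 : ℝ) • p.1 + (4 / 5 : ℝ) • p.2 ∈ Om N τ} from (measurable_fst mO).inter ((by fun_prop : Measurable fun p : (Fin (N + 1) → ℝ) × (Fin (N + 1) → ℝ) =>
      (3 / 5 : ℝ) • p.1 + (4 / 5 : ℝ) • p.2) mO)), ← integral_const_mul]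
  refine integral_congr_ae (.of_forall fun p => ?_)
  simp only [f, sq, indicator, Om, Function.comp, Prod.map, mem_ofPred,
    Pi.add_apply, Pi.smul_apply, smul_eq_mul, Finset.sum_add_distrib, ← Finset.mul_sum, add_assoc]
  split_ifs <;> simp_all <;> norm_num

lemma cosE (α β : ℝ) : ∫ p : ℝ × ℝ, cos (α * p.1 + β * p.2)
    ∂(gaussianReal 0 1).prod (gaussianReal 0 1) = exp (-((α ^ 2 + β ^ 2) / 2)) := by
  have e := integral_re (bdd ((gaussianReal 0 1).prod (gaussianReal 0 1)) (f := fun p : ℝ × ℝ =>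
    Complex.exp ((α * p.1 + β * p.2 : ℝ) * I)) (by fun_prop) 1 fun p => (norm_e _).le)
  simp only [RCLike.re_to_complex, Complex.exp_ofReal_mul_I_re] at e
  rw [e]
  simp only [Complex.ofReal_add, Complex.ofReal_mul, add_mul, Complex.exp_add]
  rw [integral_prod_mul (fun x : ℝ => Complex.exp (α * x * I)) (fun x : ℝ => Complex.exp (β * x * I)),
    ← charFun_apply_real, ← charFun_apply_real, charFun_gaussianReal, charFun_gaussianReal,
    ← Complex.exp_add, ← Complex.exp_ofReal_re]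
  congr 2; push_cast; ring

noncomputable def Φ (τ : ℝ) : ℝ := ∫ p : ℝ × ℝ, cos (π * (g τ p.1 - g τ (3 / 5 * p.1 + 4 / 5 * p.2)))
  ∂(gaussianReal 0 1).prod (gaussianReal 0 1)

lemma gain : ∃ τ, 0 ≤ τ ∧ τ ≤ 1 / 7 ∧ Φ 0 < Φ τ := by
  have d : 0 < exp (-(8 / 5 * π ^ 2)) - exp (-(16 / 5 * π ^ 2)) :=
    sub_pos.2 (exp_lt_exp.2 (by nlinarith [pi_pos]))
  have d1 : exp (-(8 / 5 * π ^ 2)) - exp (-(16 / 5 * π ^ 2)) ≤ 1 := by
    linarith [exp_le_one_iff.2 (neg_nonpos.2 (by positivity : 0 ≤ 8 / 5 * π ^ 2)),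
      exp_pos (-(16 / 5 * π ^ 2))]
  have ic : ∀ α β : ℝ, Integrable (fun p : ℝ × ℝ => cos (α * p.1 + β * p.2))
      ((gaussianReal 0 1).prod (gaussianReal 0 1)) := fun α β =>
    bdd _ (by fun_prop) 1 fun _ => abs_cos_le_one _
  have ig : ∀ τ, Integrable (fun p : ℝ × ℝ => cos (π * (g τ p.1 - g τ (3 / 5 * p.1 + 4 / 5 * p.2))))
      ((gaussianReal 0 1).prod (gaussianReal 0 1)) := fun τ =>
    bdd _ (by unfold g; fun_prop) 1 fun _ => abs_cos_le_one _
  have c1 := cosE (8 / 5 * π) (4 / 5 * π)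
  have c2 := cosE (12 / 5 * π) (-(4 / 5) * π)
  have c3 := cosE (4 / 5 * π) (12 / 5 * π)
  rw [show ((8 / 5 * π) ^ 2 + (4 / 5 * π) ^ 2) / 2 = 8 / 5 * π ^ 2 by ring] at c1
  rw [show ((12 / 5 * π) ^ 2 + (-(4 / 5) * π) ^ 2) / 2 = 16 / 5 * π ^ 2 by ring] at c2
  rw [show ((4 / 5 * π) ^ 2 + (12 / 5 * π) ^ 2) / 2 = 16 / 5 * π ^ 2 by ring] at c3
  generalize exp (-(8 / 5 * π ^ 2)) = E1 at *
  generalize exp (-(16 / 5 * π ^ 2)) = E2 at *
  set τ := (E1 - E2) / 100 with hτ
  have t0 : 0 < τ := by positivity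
  have t1 : τ ≤ 1 / 100 := by linarith
  have p3 := pi_gt_three
  have p4 := pi_lt_four
  refine ⟨τ, t0.le, by linarith, ?_⟩
  have i1 := ((ic (8 / 5 * π) (4 / 5 * π)).const_mul 2).sub' (ic (12 / 5 * π) (-(4 / 5) * π))
  have i2 := (i1.sub' (ic (4 / 5 * π) (12 / 5 * π))).const_mul (π * τ / 2)
  have k := integral_mono (((ig 0).fun_add i2).sub' (integrable_const (4 * (π * τ) ^ 2))) (ig τ)
    fun p => by
      obtain ⟨x, z⟩ := p
      simp only [g, zero_mul, sub_zero]
      rw [show 8 / 5 * π * x + 4 / 5 * π * z = π * (x + (3 / 5 * x + 4 / 5 * z)) by ring,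
        show 12 / 5 * π * x + -(4 / 5) * π * z = π * (3 * x - (3 / 5 * x + 4 / 5 * z)) by ring,
        show 4 / 5 * π * x + 12 / 5 * π * z = π * (3 * (3 / 5 * x + 4 / 5 * z) - x) by ring]
      generalize 3 / 5 * x + 4 / 5 * z = y
      have e : 2 * cos (π * (x + y)) - cos (π * (3 * x - y)) - cos (π * (3 * y - x)) =
          2 * ((sin (2 * π * x) - sin (2 * π * y)) * sin (π * (x - y))) := by
        have a1 := cos_sub_cos (π * (x + y)) (π * (3 * x - y))
        have a2 := cos_sub_cos (π * (x + y)) (π * (3 * y - x))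
        rw [show (π * (x + y) + π * (3 * x - y)) / 2 = 2 * π * x by ring,
          show (π * (x + y) - π * (3 * x - y)) / 2 = -(π * (x - y)) by ring, sin_neg] at a1
        rw [show (π * (x + y) + π * (3 * y - x)) / 2 = 2 * π * y by ring,
          show (π * (x + y) - π * (3 * y - x)) / 2 = π * (x - y) by ring] at a2
        linarith
      rw [e, show π * (x - τ * sin (2 * π * x) - (y - τ * sin (2 * π * y))) =
        π * (x - y) - π * τ * (sin (2 * π * x) - sin (2 * π * y)) by ring, cos_sub]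
      have hs : |sin (2 * π * x) - sin (2 * π * y)| ≤ 2 := (abs_sub _ _).trans (by
        linarith [abs_sin_le_one (2 * π * x), abs_sin_le_one (2 * π * y)])
      generalize sin (2 * π * x) - sin (2 * π * y) = s at *
      have hB : |π * τ * s| ≤ 2 * (π * τ) := by
        rw [abs_mul, abs_of_pos (by positivity)]; nlinarith [mul_pos pi_pos t0]
      have hB1 : 2 * (π * τ) ≤ 1 := by nlinarith
      rw [show π * τ / 2 * (2 * (s * sin (π * (x - y)))) = π * τ * s * sin (π * (x - y)) by ring]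
      generalize π * τ * s = B at *
      generalize π * (x - y) = A
      have b1 := one_sub_sq_div_two_le_cos (x := B)
      have b2 := abs_sub_sin_le B
      have b3 : |B| ^ 2 ≤ (2 * (π * τ)) ^ 2 := by gcongr
      have b4 : |B| ^ 3 ≤ |B| ^ 2 := pow_le_pow_of_le_one (abs_nonneg _) (by linarith) (by norm_num)
      have b5 : |sin A * (B - sin B)| ≤ |B - sin B| := by
        rw [abs_mul]; exact mul_le_of_le_one_left (abs_nonneg _) (abs_sin_le_one _)
      rw [_root_.sq_abs] at b3 b4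
      nlinarith [le_of_abs_le b5, mul_nonneg (sub_nonneg.2 (cos_le_one A)) (sub_nonneg.2 (cos_le_one B))]
  rw [integral_sub ((ig 0).fun_add i2) (integrable_const _), integral_add (ig 0) i2, integral_const_mul,
    integral_sub i1 (ic _ _), integral_sub ((ic _ _).const_mul 2) (ic _ _), integral_const_mul,
    c1, c2, c3] at k
  simp only [integral_const, probReal_univ, smul_eq_mul, one_mul] at k
  unfold Φ
  have : 4 * (π * τ) < E1 - E2 := by nlinarith
  nlinarith [mul_pos (mul_pos pi_pos t0) (sub_pos.2 this)]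

theorem result : ∃ n : ℕ, 1 ≤ n ∧ ∃ ρ : ℝ, 1 / 2 < ρ ∧ ρ < 1 ∧
    Periodic {x : Fin n → ℝ | 0 ≤ sin (π * ∑ i, x i)} ∧ ∃ Ω : Set (Fin n → ℝ), MeasurableSet Ω ∧
    Periodic Ω ∧ stab ρ {x : Fin n → ℝ | 0 ≤ sin (π * ∑ i, x i)} < stab ρ Ω := by
  obtain ⟨τ, h0, h1, h2⟩ := gain
  have t : Tendsto (fun N : ℕ => 2 * (6 + 5 * C0) * exp (-(π ^ 2 * N / 50)) ^ 5) atTop
      (𝓝 (2 * (6 + 5 * C0) * 0 ^ 5)) := ((tendsto_exp_neg_atTop_nhds_zero.comp
    ((tendsto_natCast_atTop_atTop.const_mul_atTop (by positivity)).atTop_div_const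
      (by norm_num))).pow 5).const_mul _
  obtain ⟨N, h3, h4⟩ := ((t.eventually_lt_const (u := 8 / π ^ 2 * (Φ τ - Φ 0))
    (by simp; positivity)).and (eventually_ge_atTop 1)).exists
  have hB : {x : Fin (N + 1) → ℝ | 0 ≤ sin (π * ∑ i, x i)} = Om N 0 := by
    simp [Om, g, Fin.sum_univ_succ]
  refine ⟨N + 1, by omega, 3 / 5, by norm_num, by norm_num, hB ▸ per N le_rfl (by norm_num), Om N τ,
    measurableSet_le measurable_const (by unfold g; fun_prop), per N h0 h1, ?_⟩
  have : IsProbabilityMeasure (gauss (N + 1)) := by unfold gauss; infer_instance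
  rw [hB]
  refine (ENNReal.toReal_lt_toReal (measure_ne_top _ _) (measure_ne_top _ _)).1 ?_
  have k : ∀ τ, |4 * (stab (3 / 5) (Om N τ)).toReal -
      (1 + 8 / π ^ 2 * exp (-(π ^ 2 * N / 50)) ^ 20 * Φ τ)| ≤
      (6 + 5 * C0) * exp (-(π ^ 2 * N / 50)) ^ 25 := fun τ => by
    have ig : Integrable (fun p : ℝ × ℝ => cos (π * (g τ p.1 - g τ (3 / 5 * p.1 + 4 / 5 * p.2))))
      ((gaussianReal 0 1).prod (gaussianReal 0 1)) :=
      bdd _ (by unfold g; fun_prop) 1 fun _ => abs_cos_le_one _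
    have := norm_integral_le_of_norm_le_const (μ := (gaussianReal 0 1).prod (gaussianReal 0 1))
      (.of_forall fun p : ℝ × ℝ => (norm_eq_abs _).trans_le (H_est N (by exact_mod_cast h4) (g τ p.1)
        (g τ (3 / 5 * p.1 + 4 / 5 * p.2))))
    rw [integral_sub (stab_eq N τ).1 ((integrable_const _).fun_add (ig.const_mul _)),
      integral_add (integrable_const _) (ig.const_mul _), integral_const_mul, ← (stab_eq N τ).2] at this
    simpa [Φ] using this
  have k0 := abs_le.1 (k 0)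
  have k1 := abs_le.1 (k τ)
  have := mul_lt_mul_of_pos_left h3 (by positivity : 0 < exp (-(π ^ 2 * N / 50)) ^ 20)
  change (stab _ (Om N 0)).toReal < (stab _ (Om N τ)).toReal
  nlinarith

end Pool.Agent.Results.MP_9b0515_pr.Counter
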